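import Pool.Agent.W92.ET.Base

/-! Project ET (owner helper92), part HHLB: lower bound for `HH`. -/

set_option autoImplicit false

open MeasureTheory

namespace Pool.Agent.W735.ET

open Pool.Agent.W92.ET

theorem PP_nonneg {r : ℝ} (h0 : 0 ≤ r) (h1 : r ≤ 1) : 0 ≤ PP r := by
  have h2 : 0 ≤ 1 - r := by linarith
  have h3 : PP r = 19 / 60 + r * (2023 / 300 * (1 - r) ^ 4
      + 4 * (2023 / 300 - 6559 / 1600) * r * (1 - r) ^ 3
      + 6 * (2023 / 300 - 6559 / 800 + 157 / 60) * r ^ 2 * (1 - r) ^ 2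
      + 4 * (2023 / 300 - 3 * 6559 / 1600 + 157 / 20 - 259 / 160) * r ^ 3 * (1 - r)
      + (2023 / 300 - 6559 / 400 + 157 / 10 - 259 / 40 + 21 / 16) * r ^ 4) := by
    unfold PP; ring
  rw [h3]
  have e1 : (0 : ℝ) ≤ 2023 / 300 - 6559 / 1600 := by norm_num
  have e2 : (0 : ℝ) ≤ 2023 / 300 - 6559 / 800 + 157 / 60 := by norm_num
  have e3 : (0 : ℝ) ≤ 2023 / 300 - 3 * 6559 / 1600 + 157 / 20 - 259 / 160 := by norm_num
  have e4 : (0 : ℝ) ≤ 2023 / 300 - 6559 / 400 + 157 / 10 - 259 / 40 + 21 / 16 := by norm_num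
  have f1 := mul_nonneg (mul_nonneg (mul_nonneg (by norm_num : (0 : ℝ) ≤ 4) e1) h0) (pow_nonneg h2 3)
  have f2 := mul_nonneg (mul_nonneg (mul_nonneg (by norm_num : (0 : ℝ) ≤ 6) e2) (pow_nonneg h0 2))
    (pow_nonneg h2 2)
  have f3 := mul_nonneg (mul_nonneg (mul_nonneg (by norm_num : (0 : ℝ) ≤ 4) e3) (pow_nonneg h0 3)) h2
  have f4 := mul_nonneg e4 (pow_nonneg h0 4)
  have f0 : (0 : ℝ) ≤ 2023 / 300 * (1 - r) ^ 4 := mul_nonneg (by norm_num) (pow_nonneg h2 4)
  have f5 := mul_nonneg h0 (add_nonneg (add_nonneg (add_nonneg (add_nonneg f0 f1) f2) f3) f4)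
  linarith

theorem geom_le {q : ℝ} (h0 : 0 ≤ q) (h1 : q < 1) (n : ℕ) :
    ∑ k ∈ Finset.range n, q ^ k ≤ 1 / (1 - q) := by
  rw [le_div_iff₀ (by linarith)]
  have h := geom_sum_mul_neg q n
  rw [h]
  have := pow_nonneg h0 n
  linarith

theorem continuous_PP : Continuous PP := by
  unfold PP; fun_prop

/-- (6) Lower bound for `HH`. -/
theorem hhlb (h : S_HH) : S_HHlb := by
  intro y hy K
  have hy2 : 1 < y ^ 2 := by nlinarith
  obtain ⟨-, h2⟩ := h y hy
  rw [h2]
  set z : ℝ := 1 - 1 / y ^ 2 with hz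
  have hz0 : 0 ≤ z := by
    rw [hz, sub_nonneg, div_le_one (by positivity)]; exact hy2.le
  have hz1 : z < 1 := by
    have : 0 < 1 / y ^ 2 := by positivity
    rw [hz]; linarith
  have h3 : ∑ k ∈ Finset.range (K + 1), hc k * z ^ k =
      ∫ s in (0 : ℝ)..1, ∑ k ∈ Finset.range (K + 1), PP (s ^ 2) * s ^ (2 * k) * z ^ k := by
    rw [intervalIntegral.integral_finset_sum]
    · refine Finset.sum_congr rfl fun k _ => ?_
      rw [intervalIntegral.integral_mul_const]
      rfl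
    · intro k _
      apply Continuous.intervalIntegrable
      have := continuous_PP
      fun_prop
  rw [h3]
  have hden : ∀ s ∈ Set.Icc (0 : ℝ) 1, 0 ≤ z * s ^ 2 ∧ z * s ^ 2 < 1 := by
    intro s hs
    have h4 : s ^ 2 ≤ 1 := by nlinarith [hs.1, hs.2]
    have h5 : 0 ≤ s ^ 2 := sq_nonneg s
    refine ⟨mul_nonneg hz0 h5, ?_⟩
    nlinarith
  refine intervalIntegral.integral_mono_on (by norm_num) ?_ ?_ ?_
  · apply Continuous.intervalIntegrable
    have := continuous_PP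
    fun_prop
  · apply ContinuousOn.intervalIntegrable
    rw [Set.uIcc_of_le (by norm_num)]
    refine ContinuousOn.div ?_ ?_ ?_
    · have := continuous_PP
      exact (by fun_prop : Continuous fun s : ℝ => PP (s ^ 2)).continuousOn
    · fun_prop
    · intro s hs
      have := (hden s hs).2
      have h6 : 0 < 1 - z * s ^ 2 := by linarith
      exact h6.ne'
  · intro s hs
    obtain ⟨h4, h5⟩ := hden s hs
    have h6 : s ^ 2 ≤ 1 := by nlinarith [hs.1, hs.2]
    have h7 := PP_nonneg (sq_nonneg s) h6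
    calc ∑ k ∈ Finset.range (K + 1), PP (s ^ 2) * s ^ (2 * k) * z ^ k
        = PP (s ^ 2) * ∑ k ∈ Finset.range (K + 1), (z * s ^ 2) ^ k := by
          rw [Finset.mul_sum]
          refine Finset.sum_congr rfl fun k _ => ?_
          rw [mul_pow, ← pow_mul]; ring
      _ ≤ PP (s ^ 2) * (1 / (1 - z * s ^ 2)) :=
          mul_le_mul_of_nonneg_left (geom_le h4 h5 _) h7
      _ = PP (s ^ 2) / (1 - z * s ^ 2) := by ring

end Pool.Agent.W735.ET
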